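import Mathlib

/-!
# Project PZ (MP_acfd82_an): sharp quantitative forms of property (Z)

All goals are statements `P_...`; each is independent of the others (a goal that needs another one
takes it as a hypothesis). Complete proofs are in the docstrings.
-/

namespace Pool.Agent.Helper75.PZ

open Finset Filter Topology

/-- The Gromov product of `x` and `y` at `z`. -/
noncomputable def gp {M : Type} [MetricSpace M] (x y z : M) : ℝ :=
  (dist x z + dist y z - dist x y) / 2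

/-- Every two different points at distance at most `R` have a third point `z` whose Gromov
product is at most `e` times the smaller of the two distances to `z`. -/
def ZUpTo (M : Type) [MetricSpace M] (e R : ℝ) : Prop :=
  ∀ u v : M, u ≠ v → dist u v ≤ R →
    ∃ z : M, z ≠ u ∧ z ≠ v ∧ gp u v z ≤ e * min (dist u z) (dist v z)

/-- The same for all pairs, where the factor is a function `w` of the distance of the pair. -/
def ZFun (M : Type) [MetricSpace M] (w : ℝ → ℝ) : Prop :=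
  ∀ u v : M, u ≠ v →
    ∃ z : M, z ≠ u ∧ z ≠ v ∧ gp u v z ≤ w (dist u v) * min (dist u z) (dist v z)

/-! ## Section 1: the super-step -/

/-- PACKET EKE (Ekeland principle for pairs). For `0 < c` and `0 ≤ r` and points `x, y` of a
complete metric space there is a pair of points `x', y'` with `d(x,x') ≤ r`, `d(y,y') ≤ r` and
`c (d(x,x') + d(y,y')) + d(x',y') ≤ d(x,y)` which is minimal for the order below.

Proof. Write `X` for the set of pairs ` (u,v)` with `d(x,u) ≤ r` and `d(y,v) ≤ r` (closed in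
`M × M`), `f(u,v) = d(u,v)`, and for `z = (u,v)`, `z' = (u',v')` write `z' ≼ z` if
`c (d(u,u') + d(v,v')) + f(z') ≤ f(z)`. The relation is reflexive and transitive (triangle
inequality), and `S(z) = {z' ∈ X : z' ≼ z}` is closed and contains `z` if `z ∈ X`.
Put `z 0 = (x,y)` and choose `z (n+1) ∈ S(z n)` with `f(z (n+1)) ≤ inf f(S(z n)) + 2^(-n)`
(the infimum is finite as `f ≥ 0`). Then `f(z n)` is decreasing and bounded below by `0`, and
`c (d(u_n,u_m) + d(v_n,v_m)) ≤ f(z n) - f(z m)` for `n ≤ m`, so both coordinates are Cauchy; let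
`z = (x',y')` be the limit. As `z m ∈ S(z n)` for `m ≥ n` and `S(z n)` is closed, `z ∈ S(z n)`
for every `n`; `n = 0` gives the first three claims. If `w ∈ X`, `w ≼ z`, then `w ∈ S(z n)`, so
`f(w) ≥ f(z (n+1)) - 2^(-n) ≥ f(z) - 2^(-n)` for all `n`, that is `f(w) ≥ f(z)`, and
`c (dist of the coordinates) ≤ f(z) - f(w) ≤ 0` gives `w = z`. -/
def P_EKE : Prop :=
  ∀ (M : Type) [MetricSpace M] [CompleteSpace M] (c r : ℝ) (x y : M), 0 < c → 0 ≤ r →
    ∃ x' y' : M, dist x x' ≤ r ∧ dist y y' ≤ r ∧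
      c * (dist x x' + dist y y') + dist x' y' ≤ dist x y ∧
      ∀ u v : M, dist x u ≤ r → dist y v ≤ r →
        c * (dist x' u + dist y' v) + dist u v ≤ dist x' y' → u = x' ∧ v = y'

/-- PACKET SUP (super-step). May assume `P_EKE`.
`0 ≤ e < 1/2`, `0 < h < 1/2`, `x ≠ y`, `D = d(x,y)`, and the property for all pairs at distance at
most `D`. Then there are `p1, p2, p3` such that with `a0 = d(x,p1)`, `a1 = d(p1,p2)`,
`a2 = d(p2,p3)`, `a3 = d(p3,y)`: `a0, a3 ≤ h D`,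
` (1-2e)(a0 + a3 + min a1 a2) + max a1 a2 ≤ D`, and either `a1 ≤ a2` and `h D < d(x,p2)`, or
`a2 ≤ a1` and `h D < d(p2,y)`.

Proof. Apply `P_EKE` with `c = 1-2e > 0`, `r = h D`: get `p1 = x'`, `p3 = y'`. By the triangle
inequality `d(p1,p3) ≥ D - 2 h D > 0`, so `p1 ≠ p3`, and `d(p1,p3) ≤ D`. The property gives
`z ≠ p1, p3` with `gp p1 p3 z ≤ e min(d(p1,z), d(p3,z))`; put `p2 = z`. Say
`d(p1,z) ≤ d(z,p3)` (the other case is symmetric). Then
`d(p1,z) + d(z,p3) - d(p1,p3) ≤ 2 e d(p1,z)`, that is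
` (1-2e) d(p1,z) + d(z,p3) ≤ d(p1,p3)`; together with
` (1-2e)(a0 + a3) + d(p1,p3) ≤ D` this is the inequality. If `d(x,z) ≤ h D`, the pair
` (u,v) = (z, p3)` contradicts the minimality (`u = z ≠ p1`). So `h D < d(x,z)`. -/
def P_SUP : Prop :=
  ∀ (M : Type) [MetricSpace M] [CompleteSpace M] (e h : ℝ) (x y : M),
    0 ≤ e → e < 1 / 2 → 0 < h → h < 1 / 2 → x ≠ y → ZUpTo M e (dist x y) →
    ∃ p1 p2 p3 : M,
      dist x p1 ≤ h * dist x y ∧ dist p3 y ≤ h * dist x y ∧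
      (1 - 2 * e) * (dist x p1 + dist p3 y + min (dist p1 p2) (dist p2 p3))
        + max (dist p1 p2) (dist p2 p3) ≤ dist x y ∧
      ((dist p1 p2 ≤ dist p2 p3 ∧ h * dist x y < dist x p2) ∨
       (dist p2 p3 ≤ dist p1 p2 ∧ h * dist x y < dist p2 y))

/-- PACKET NUM (real numbers only). `q ≥ 1` with ` (2(1-e))^q = 2`.

Proof. (1) If `0 ≤ m ≤ b` and ` (1-2e) m + b ≤ R` then `m^q + b^q ≤ R^q`. For `R = 0` all is `0`.
For `R > 0` divide by `R`; so let `R = 1`. Put `m* = 1/(2(1-e))`, so `m*^q = 1/2`, and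
`l = 2(1-e) m`; as `m ≤ b ≤ 1-(1-2e)m` we get `0 ≤ l ≤ 1`. Then `m = l m*` and
`b ≤ 1-(1-2e)m = (1-l) 1 + l m*` (check: `1 - (1-2e) m* = m*`). Convexity of `t^q` gives
`b^q ≤ (1-l) + l m*^q` and `m^q = l^q m*^q ≤ l m*^q`, sum `≤ 1 - l + 2 l m*^q = 1`.
(2) For `0 ≤ a ≤ h`: `a^q = a a^(q-1) ≤ a h^(q-1) ≤ (1-2e) a`, so the maxima for `a0`, `a3`
are ` (1-2e) a0`, ` (1-2e) a3` (for `a = 0` both are `0`).
(3) All of `a0, a3, m, b` are at most `1`. If `m^q ≤ (1-2e) m` the maxima for `m`, `b` are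
` (1-2e) m` and at most `b` (as `b ≤ 1`), and the sum is at most ` (1-2e)(a0+a3+m) + b ≤ 1`.
(4) Otherwise `m > 0`, `m^(q-1) > 1-2e`, hence `b^(q-1) ≥ m^(q-1) > 1-2e` and the maxima are
`m^q`, `b^q`. With `R = 1-(1-2e)(a0+a3)`, `0 ≤ R ≤ 1`, (1) gives `m^q + b^q ≤ R^q ≤ R`, and the
sum is at most `R + (1-2e)(a0+a3) = 1`. -/
def P_NUM : Prop :=
  ∀ e q h a0 a3 m b : ℝ, 0 ≤ e → e < 1 / 2 → 1 ≤ q → (2 * (1 - e)) ^ q = 2 →
    0 < h → h ≤ 1 → h ^ (q - 1) ≤ 1 - 2 * e → 0 ≤ a0 → a0 ≤ h → 0 ≤ a3 → a3 ≤ h →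
    0 ≤ m → m ≤ b → (1 - 2 * e) * (a0 + a3 + m) + b ≤ 1 →
    max (a0 ^ q) ((1 - 2 * e) * a0) + max (a3 ^ q) ((1 - 2 * e) * a3)
      + max (m ^ q) ((1 - 2 * e) * m) + max (b ^ q) ((1 - 2 * e) * b) ≤ 1

/-- A splitting rule with `N` pieces: for different points `x, y` at distance at most `R` a chain
`P x y 0 = x, ..., P x y N = y` and nonnegative times `T x y i` with sum `1`, such that each step
is at most `k` times, at most ` (T x y i)^s` times, and at most `K * T x y i` times the distance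
of `x` and `y`. -/
structure Rule (M : Type) [MetricSpace M] (R k K s : ℝ) (N : ℕ)
    (P : M → M → ℕ → M) (T : M → M → ℕ → ℝ) : Prop where
  P0 : ∀ x y : M, x ≠ y → dist x y ≤ R → P x y 0 = x
  PN : ∀ x y : M, x ≠ y → dist x y ≤ R → P x y N = y
  T0 : ∀ x y : M, x ≠ y → dist x y ≤ R → ∀ i < N, 0 ≤ T x y i
  T1 : ∀ x y : M, x ≠ y → dist x y ≤ R → ∑ i ∈ range N, T x y i = 1
  hk : ∀ x y : M, x ≠ y → dist x y ≤ R → ∀ i < N,
    dist (P x y i) (P x y (i + 1)) ≤ k * dist x y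
  hs : ∀ x y : M, x ≠ y → dist x y ≤ R → ∀ i < N,
    dist (P x y i) (P x y (i + 1)) ≤ (T x y i) ^ s * dist x y
  hK : ∀ x y : M, x ≠ y → dist x y ≤ R → ∀ i < N,
    dist (P x y i) (P x y (i + 1)) ≤ K * T x y i * dist x y

/-- PACKET SPL (the rule with four pieces). May assume `P_SUP`, `P_NUM`.
With `s = 1 + log_2 (1-e)` (so `2^s = 2(1-e)`, `0 < s ≤ 1`), `q = 1/s ≥ 1` (so
` (2(1-e))^q = 2`), `K = 1/(1-2e)`.

Proof. Choose `h` in ` (0, 1/2)` with `h^(q-1) ≤ 1-2e`: if `e = 0` then `s = q = 1` and `h = 1/4`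
works; if `e > 0` then `q > 1` and `h = min (1/4) ((1-2e)^(1/(q-1)))` works. Put
`k = 1-(1-2e)h`, so `1/2 ≤ k < 1`. For `x ≠ y` with `D = d(x,y) ≤ R` the space satisfies
`ZUpTo M e D`, and `P_SUP` gives `p1,p2,p3`; let `P x y = x,p1,p2,p3,y,y,...` and `a_i` the four
distances. We have `a0,a3 ≤ h D ≤ k D`, and (triangle inequality) `h D < a0 + a3 + min a1 a2`, so
`max a1 a2 ≤ D - (1-2e) h D = k D`. With `α_i = a_i/D` the lemma `P_NUM` (applied to
`m = min α1 α2`, `b = max α1 α2`) gives `∑ μ_i ≤ 1` for `μ_i = max (α_i^q) ((1-2e) α_i)`. Put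
`T x y i = μ_i + (1 - ∑ μ_j)/4` for `i < 4`. Then `T ≥ μ_i ≥ 0`, sum `1`,
`α_i = (α_i^q)^s ≤ T^s` and `α_i ≤ K T`. Choose `P`, `T` by choice (arbitrary values
for other pairs). -/
def P_SPL : Prop :=
  ∀ e : ℝ, 0 ≤ e → e < 1 / 2 → ∃ k : ℝ, 0 < k ∧ k < 1 ∧
    ∀ (M : Type) [MetricSpace M] [CompleteSpace M] (R : ℝ), ZUpTo M e R →
      ∃ (P : M → M → ℕ → M) (T : M → M → ℕ → ℝ),
        Rule M R k (1 / (1 - 2 * e)) (1 + Real.logb 2 (1 - e)) 4 P T

/-- PACKET BIN (the rule with two pieces). May assume `P_SUP`.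
`0 ≤ e ≤ 1/8`: there is `z` with `d(x,z), d(z,y) ≤ (7/8) D` and `d(x,z)+d(z,y) ≤ (1+2e) D`.

Proof. `P_SUP` with `h = 1/4`; by symmetry let `a1 ≤ a2` and `D/4 < d(x,p2)`, put `z = p2`.
`c = 1-2e ≥ 3/4`. We know `c(a0+a3+a1)+a2 ≤ D`, `a0,a3 ≤ D/4`, `d(x,z) ≤ a0+a1`,
`d(z,y) ≤ a2+a3`, `a0+a1 > D/4`.
(i) `d(z,y) ≤ a2+a3 ≤ D - c(a0+a1) + 2e a3 ≤ D - c D/4 + 2e D/4 = D(1-(1-4e)/4) ≤ (7/8) D`.
(ii) ` (1+c) a1 ≤ c a1 + a2 ≤ D - c a0` gives ` (1+c)(a0+a1) ≤ D + a0 ≤ (5/4) D`, so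
`d(x,z) ≤ a0 + a1 ≤ (5/7) D ≤ (7/8) D`.
(iii) `S = a0+a3+a1` satisfies ` (1+c) S ≤ c(a0+a3+a1) + a2 + (a0+a3) ≤ D + D/2`, so
`S ≤ (6/7) D ≤ D` and `d(x,z)+d(z,y) ≤ S + a2 = (cS+a2) + 2e S ≤ D + 2e D`. -/
def P_BIN : Prop :=
  ∀ (M : Type) [MetricSpace M] [CompleteSpace M] (e : ℝ) (x y : M), 0 ≤ e → e ≤ 1 / 8 →
    ZUpTo M e (dist x y) →
    ∃ z : M, dist x z ≤ 7 / 8 * dist x y ∧ dist z y ≤ 7 / 8 * dist x y ∧
      dist x z + dist z y ≤ (1 + 2 * e) * dist x y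

/-! ## Section 2: concatenation and iteration -/

/-- Concatenation of the curves `g i`, `i < n`, where `g i` runs from `p i` (before time `0`) to
`p (i+1)` (after time `t i`). -/
noncomputable def cat {M : Type} (p : ℕ → M) (t : ℕ → ℝ) (g : ℕ → ℝ → M) : ℕ → ℝ → M
  | 0 => fun _ => p 0
  | n + 1 => fun u =>
      if u < ∑ i ∈ range n, t i then cat p t g n u else g n (u - ∑ i ∈ range n, t i)

/-- Hypotheses of the concatenation lemma. -/
structure CatHyp {M : Type} [MetricSpace M] (p : ℕ → M) (t : ℕ → ℝ) (g : ℕ → ℝ → M) (n : ℕ)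
    (f F : ℝ → ℝ) (K B B' : ℝ) : Prop where
  t0 : ∀ i < n, 0 ≤ t i
  tot : ∑ i ∈ range n, t i ≤ 1
  g0 : ∀ i < n, ∀ s ≤ 0, g i s = p i
  g1 : ∀ i < n, ∀ s, t i ≤ s → g i s = p (i + 1)
  gL : ∀ i < n, ∀ s, 0 ≤ s → dist (p i) (g i s) ≤ f s + B
  gR : ∀ i < n, ∀ s, s ≤ t i → dist (g i s) (p (i + 1)) ≤ f (t i - s) + B
  gH : ∀ i < n, ∀ s s', s ≤ s' → dist (g i s) (g i s') ≤ F (s' - s) + B'
  pK : ∀ i < n, dist (p i) (p (i + 1)) ≤ K * t i
  f0 : ∀ a, 0 ≤ a → 0 ≤ f a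
  fm : ∀ a b, 0 ≤ a → a ≤ b → f a ≤ f b
  f1 : ∀ a v, 0 ≤ a → a ≤ v → v ≤ 1 → K * a + f (v - a) ≤ f v
  F1 : ∀ a b, 0 ≤ a → 0 ≤ b → f a + f b ≤ F (a + b)
  hB : 0 ≤ B
  BB : 2 * B ≤ B'

/-- PACKET CAT (concatenation lemma). Write `T_n = ∑_{i<n} t i`, `G_n = cat p t g n`.

Proof by induction on `n` (the hypotheses for `n+1` imply those for `n`; `0 ≤ T_n ≤ T_{n+1} ≤ 1`;
`d(p 0, p n) ≤ K T_n` by `pK` and the triangle inequality).
(c0) `u ≤ 0` gives `G_{n+1}(u) = p 0`: if `u < T_n` use the induction hypothesis; otherwise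
`0 ≥ u ≥ T_n ≥ 0`, so `T_n = 0 = u`, all `t i = 0` for `i < n`, so `p n = p 0` by `pK`, and
`G_{n+1}(0) = g n 0 = p n`.
(c1) `u ≥ T_{n+1}`: then `u ≥ T_n` and `G_{n+1}(u) = g n (u - T_n) = p (n+1)` as
`u - T_n ≥ t n`.
(L) for `0 ≤ u ≤ 1`: if `u < T_n` induction; otherwise
`d(p 0, G_{n+1}(u)) ≤ K T_n + f(u-T_n) + B ≤ f u + B` by `f1`. For `u > 1 ≥ T_{n+1}` both `u` and
`1` give `p (n+1)` by (c1), and `f 1 ≤ f u`.
(R) for `0 ≤ u ≤ T_{n+1}`: if `u < T_n`, then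
`d(G_n(u), p n) + d(p n, p (n+1)) ≤ f(T_n - u) + B + K t_n ≤ f(T_{n+1} - u) + B` by `f1` with
`a = t n`, `v = T_{n+1}-u ≤ 1`. If `u ≥ T_n` it is `gR`. For `u < 0` use (c0):
`G(u) = p 0 = G(0)` and `f` is monotone (for `n = 0` trivial).
(H) `u ≤ v`: if `v < T_n` induction; if `T_n ≤ u` it is `gH`; if `u < T_n ≤ v`, then by (R) for
`n` and `gL`: `d ≤ f(T_n-u) + B + f(v-T_n) + B ≤ F(v-u) + B'`. For `n = 0` everything is
constant, and `0 ≤ F (v-u)` by `F1` with `b = 0`. -/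
def P_CAT : Prop :=
  ∀ (M : Type) [MetricSpace M] (p : ℕ → M) (t : ℕ → ℝ) (g : ℕ → ℝ → M) (n : ℕ)
    (f F : ℝ → ℝ) (K B B' : ℝ), CatHyp p t g n f F K B B' →
    (∀ u ≤ 0, cat p t g n u = p 0) ∧
    (∀ u, ∑ i ∈ range n, t i ≤ u → cat p t g n u = p n) ∧
    (∀ u, 0 ≤ u → dist (p 0) (cat p t g n u) ≤ f u + B) ∧
    (∀ u, u ≤ ∑ i ∈ range n, t i →
      dist (cat p t g n u) (p n) ≤ f (∑ i ∈ range n, t i - u) + B) ∧
    (∀ u v, u ≤ v → dist (cat p t g n u) (cat p t g n v) ≤ F (v - u) + B')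

/-- PACKET CTV (variation of a concatenation).

Proof. Induction on `n`, together with (c1): `cat p t g n u = p n` for `u ≥ T_n`. The case
`n = 0`: a constant function has variation `0`. Step: `univ = Iic T_n ∪ Ici T_n`, and
`eVariationOn.union` gives the sum of the variations of `G_{n+1}` on both sets. On `Iic T_n` the
function `G_{n+1}` equals `G_n` (at `T_n` itself the value is `g n 0 = p n = G_n(T_n)`), whose
variation is at most its variation on `univ`. On `Ici T_n` it equals `g n (u - T_n)`, a monotone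
reparametrisation of `g n` (`eVariationOn.comp_le_of_monotoneOn`). -/
def P_CTV : Prop :=
  ∀ (M : Type) [MetricSpace M] (p : ℕ → M) (t : ℕ → ℝ) (g : ℕ → ℝ → M) (n : ℕ)
    (V : ℕ → ENNReal), (∀ i < n, 0 ≤ t i) → (∀ i < n, ∀ s ≤ 0, g i s = p i) →
    (∀ i < n, ∀ s, t i ≤ s → g i s = p (i + 1)) →
    (∀ i < n, eVariationOn (g i) Set.univ ≤ V i) →
    eVariationOn (cat p t g n) Set.univ ≤ ∑ i ∈ range n, V i

open Classical in
/-- The iterated curves of a splitting rule. -/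
noncomputable def Gam {M : Type} (P : M → M → ℕ → M) (T : M → M → ℕ → ℝ) (N : ℕ) :
    ℕ → M → M → ℝ → M
  | 0 => fun x y u => if u < 1 then x else y
  | n + 1 => fun x y u => if x = y then x else
      cat (P x y) (T x y)
        (fun i v => Gam P T N n (P x y i) (P x y (i + 1)) (v / T x y i)) N u

/-- PACKET GAM (estimates for the iterated curves). May assume `P_CAT`.
`D = d(x,y)`, `f(a) = (K/s) a^s`, `F(a) = 2^(1-s) (K/s) a^s`.

Proof. First `Gam n x x u = x` for all `n, u`. Induction on `n`. For `n = 0` every distance is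
at most `D = D k^0`. Step: for `x = y` trivial. For `x ≠ y` write `a_i = d(p_i,p_{i+1})`,
`τ_i = T x y i`, `g_i(v) = Gam n p_i p_{i+1} (v/τ_i)`; note `a_i ≤ k D ≤ D ≤ R`, so the induction
hypothesis applies to each ` (p_i, p_{i+1})`. Apply `P_CAT` with `f`, `F` multiplied by `D`, `K`
replaced by `K D`, `B = k^(n+1) D`, `B' = 2 k^(n+1) D`, total time `1`. Check of `CatHyp`:
`g0`: `v ≤ 0` gives `v/τ_i ≤ 0` (also if `τ_i = 0`). `g1`: `v ≥ τ_i > 0` gives `v/τ_i ≥ 1`; if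
`τ_i = 0`, then `a_i ≤ 0^s D = 0`, so `p_i = p_{i+1}` and `g_i` is constant. `gL`: for `v ≥ 0`,
`τ_i > 0`: `d(p_i, g_i(v)) ≤ a_i ((K/s) (v/τ_i)^s + k^n) ≤ D (K/s) v^s + k^(n+1) D`, because
`a_i ≤ τ_i^s D` and `a_i ≤ k D`. `gR`, `gH` in the same way. `f1`: for `0 ≤ a ≤ v ≤ 1`:
`v^s - (v-a)^s ≥ s a`: with `r = a/v` Bernoulli's inequality gives ` (1-r)^s ≤ 1 - s r`, so
` (v-a)^s ≤ v^s - s a v^(s-1) ≤ v^s - s a` (`Real.rpow_one_add_le_one_add_mul_self`; for `v = 0`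
trivial). `F1`: `a^s + b^s ≤ 2^(1-s) (a+b)^s` by concavity of `t^s`. -/
def P_GAM : Prop :=
  ∀ (M : Type) [MetricSpace M] (R k K s : ℝ) (N : ℕ) (P : M → M → ℕ → M)
    (T : M → M → ℕ → ℝ), 0 ≤ k → k ≤ 1 → 0 ≤ K → 0 < s → s ≤ 1 → Rule M R k K s N P T →
    ∀ (n : ℕ) (x y : M), dist x y ≤ R →
      (∀ u ≤ 0, Gam P T N n x y u = x) ∧ (∀ u, 1 ≤ u → Gam P T N n x y u = y) ∧
      (∀ u, 0 ≤ u → dist x (Gam P T N n x y u) ≤ dist x y * (K / s * u ^ s + k ^ n)) ∧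
      (∀ u, u ≤ 1 → dist (Gam P T N n x y u) y ≤ dist x y * (K / s * (1 - u) ^ s + k ^ n)) ∧
      (∀ u v, u ≤ v → dist (Gam P T N n x y u) (Gam P T N n x y v)
        ≤ dist x y * (2 ^ (1 - s) * (K / s) * (v - u) ^ s + 2 * k ^ n))

/-- PACKET LIM (the limit curves). May assume `P_GAM`.

Proof. Claim: `d(Gam (n+1) x y u, Gam n x y u) ≤ (K/s + 2) k^n d(x,y)` for all `u` if
`d(x,y) ≤ R`. For `u ≤ 0` or `u ≥ 1` both are equal. `n = 0`, `0 < u < 1`: by `P_GAM`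
`d(x, Gam 1 x y u) ≤ D (K/s + k)` (as `u^s ≤ 1`) and `Gam 0 x y u = x`. Step: for `x = y`
both are `x`; for `x ≠ y` both are `cat` with the same `p`, `t` and with curves `g_i`, `g'_i`
which by induction differ by at most ` (K/s+2) k^n a_i ≤ (K/s+2) k^(n+1) D`; and `cat` with
uniformly close pieces gives uniformly close curves (induction on the number of pieces, distance
`0` for zero pieces). So for every `u` the sequence is Cauchy, let `L x y u` be its limit (for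
`d(x,y) ≤ R`; arbitrary otherwise). Pass to the limit in the estimates of `P_GAM`
(`k^n → 0`); the last one for `u ≤ v` and for `v ≤ u` by symmetry. -/
def P_LIM : Prop :=
  ∀ (M : Type) [MetricSpace M] [CompleteSpace M] (R k K s : ℝ) (N : ℕ) (P : M → M → ℕ → M)
    (T : M → M → ℕ → ℝ), 0 ≤ k → k < 1 → 0 ≤ K → 0 < s → s ≤ 1 → Rule M R k K s N P T →
    ∃ L : M → M → ℝ → M, ∀ x y : M, dist x y ≤ R →
      (∀ u, Tendsto (fun n => Gam P T N n x y u) atTop (𝓝 (L x y u))) ∧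
      L x y 0 = x ∧ L x y 1 = y ∧
      (∀ u v, dist (L x y u) (L x y v) ≤ dist x y * (2 ^ (1 - s) * (K / s) * |u - v| ^ s))

/-- PACKET LEN (length of the iterated curves and of the limit). May assume `P_CTV` and `P_GAM`
(only its first two conclusions are needed).

Proof. Claim: `eVariationOn (Gam n x y) univ ≤ ofReal (D exp(2 ∑_{j<n} w(k^j D)))` for
`D = d(x,y) ≤ R`. `n = 0`: a function which is `x` before `1` and `y` from `1` on has variation
at most `D` (for example `eVariationOn.union` at `1` is not needed: every sum of consecutive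
distances along a monotone sequence has at most one nonzero term, equal to `D`; or use that
`Gam 0 x y` is a composition of a monotone function with a two point curve). Step: `x = y` is
constant. For `x ≠ y` use `P_CTV` with `V i = ofReal (a_i exp(2 ∑_{j<n} w(k^j a_i)))`
(the pieces are monotone reparametrisations of `Gam n p_i p_{i+1}`, `v ↦ v/τ_i`, and their
endpoint conditions follow from `P_GAM`, for `τ_i = 0` from `a_i = 0`). As
`a_i ≤ k D` and `w` is monotone, `w(k^j a_i) ≤ w(k^(j+1) D)`, and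
`∑ a_i ≤ (1 + 2 w(D)) D ≤ exp(2 w(D)) D`; so the sum is at most
`D exp(2 w(D) + 2 ∑_{j<n} w(k^(j+1) D))`. Limit: by lower semicontinuity of the variation under
pointwise convergence (`eVariationOn.lowerSemicontinuous_aux`) and
`∑_{j<n} w(k^j D) ≤ ∑' j, w(k^j D)`. -/
def P_LEN : Prop :=
  ∀ (M : Type) [MetricSpace M] (R k K s : ℝ) (N : ℕ) (P : M → M → ℕ → M)
    (T : M → M → ℕ → ℝ) (w : ℝ → ℝ), 0 ≤ k → k ≤ 1 → 0 ≤ K → 0 < s → s ≤ 1 →
    Rule M R k K s N P T → Monotone w → (∀ r, 0 ≤ w r) →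
    (∀ x y : M, x ≠ y → dist x y ≤ R →
      ∑ i ∈ range N, dist (P x y i) (P x y (i + 1)) ≤ (1 + 2 * w (dist x y)) * dist x y) →
    ∀ (x y : M) (L : ℝ → M), dist x y ≤ R →
      (∀ u, Tendsto (fun n => Gam P T N n x y u) atTop (𝓝 (L u))) →
      Summable (fun n : ℕ => w (k ^ n * dist x y)) →
      eVariationOn L Set.univ
        ≤ ENNReal.ofReal (dist x y * Real.exp (2 * ∑' n : ℕ, w (k ^ n * dist x y)))

end Pool.Agent.Helper75.PZ
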