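import Pool.Agent.Helper75.PZ.GoalsB

/-!
# Project PZ: assembly of the Hoelder theorem from the packets
-/

namespace Pool.Agent.Helper75.PZ

open Finset Filter Topology

/-- The exponent lies in the interval from `0` to `1`. -/
theorem expo_pos {e : ℝ} (he : 0 ≤ e) (he2 : e < 1 / 2) : 0 < 1 + Real.logb 2 (1 - e) := by
  have h1 : Real.logb 2 (1 / 2) < Real.logb 2 (1 - e) :=
    Real.logb_lt_logb (by norm_num) (by norm_num) (by linarith)
  have h2 : Real.logb 2 (1 / 2) = -1 := by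
    rw [one_div, Real.logb_inv, Real.logb_self_eq_one (by norm_num)]
  linarith

theorem expo_le {e : ℝ} (he : 0 ≤ e) (he2 : e < 1 / 2) : 1 + Real.logb 2 (1 - e) ≤ 1 := by
  have h1 : Real.logb 2 (1 - e) ≤ 0 :=
    Real.logb_nonpos (by norm_num) (by linarith) (by linarith)
  linarith

theorem two_rpow_one_sub {e : ℝ} (he : 0 ≤ e) (he2 : e < 1 / 2) :
    (2 : ℝ) ^ (1 - (1 + Real.logb 2 (1 - e))) = 1 / (1 - e) := by
  have h1 : (0 : ℝ) < 1 - e := by linarith
  have h2 : (1 : ℝ) - (1 + Real.logb 2 (1 - e)) = - Real.logb 2 (1 - e) := by ring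
  rw [h2, Real.rpow_neg (by norm_num), Real.rpow_logb (by norm_num) (by norm_num) h1, one_div]

/-- The quantitative Hoelder theorem. -/
theorem aq (h1 : P_SPL) (h2 : P_LIM) (M : Type) [MetricSpace M] [CompleteSpace M]
    (e : ℝ) (x y : M) (he : 0 ≤ e) (he2 : e < 1 / 2) (hz : ZUpTo M e (dist x y)) :
    ∃ γ : ℝ → M, γ 0 = x ∧ γ 1 = y ∧ ∀ u v : ℝ,
      dist (γ u) (γ v) ≤ dist x y / ((1 - e) * (1 - 2 * e) * (1 + Real.logb 2 (1 - e)))
        * |u - v| ^ (1 + Real.logb 2 (1 - e)) := by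
  obtain ⟨k, hk0, hk1, hk⟩ := h1 e he he2
  obtain ⟨P, T, hR⟩ := hk M (dist x y) hz
  have hs0 := expo_pos he he2
  have hs1 := expo_le he he2
  have hK : (0 : ℝ) ≤ 1 / (1 - 2 * e) := by
    apply div_nonneg zero_le_one; linarith
  obtain ⟨L, hL⟩ := h2 M (dist x y) k (1 / (1 - 2 * e)) (1 + Real.logb 2 (1 - e)) 4 P T
    hk0.le hk1 hK hs0 hs1 hR
  obtain ⟨_, h0, h1', h3⟩ := hL x y le_rfl
  refine ⟨L x y, h0, h1', fun u v => ?_⟩
  refine (h3 u v).trans (le_of_eq ?_)
  rw [two_rpow_one_sub he he2]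
  have e1 : (1 - e) ≠ 0 := by linarith
  have e2 : (1 - 2 * e) ≠ 0 := by linarith
  field_simp

/-- Monotonicity of the property in the modulus. -/
theorem ZFun.mono {M : Type} [MetricSpace M] {w w' : ℝ → ℝ} (h : ZFun M w)
    (hw : ∀ r, w r ≤ w' r) : ZFun M w' := by
  intro u v huv
  obtain ⟨z, hz1, hz2, hz3⟩ := h u v huv
  refine ⟨z, hz1, hz2, hz3.trans ?_⟩
  exact mul_le_mul_of_nonneg_right (hw _) (le_min dist_nonneg dist_nonneg)

theorem ZFun.upTo {M : Type} [MetricSpace M] {w : ℝ → ℝ} (hw : Monotone w) (h : ZFun M w)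
    (R : ℝ) : ZUpTo M (w R) R := by
  intro u v huv hR
  obtain ⟨z, hz1, hz2, hz3⟩ := h u v huv
  refine ⟨z, hz1, hz2, hz3.trans ?_⟩
  exact mul_le_mul_of_nonneg_right (hw hR) (le_min dist_nonneg dist_nonneg)

/-- The full Hoelder theorem: explicit bound, and the exact range of exponents. -/
theorem final_A (h1 : P_SPL) (h2 : P_LIM) (h3 : P_SNW) (h4 : P_PAD) :
    (∀ (M : Type) [MetricSpace M] [CompleteSpace M] (e : ℝ) (x y : M), 0 ≤ e → e < 1 / 2 →
      ZUpTo M e (dist x y) →
      ∃ γ : ℝ → M, γ 0 = x ∧ γ 1 = y ∧ ∀ u v : ℝ,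
        dist (γ u) (γ v) ≤ dist x y / ((1 - e) * (1 - 2 * e) * (1 + Real.logb 2 (1 - e)))
          * |u - v| ^ (1 + Real.logb 2 (1 - e))) ∧
    ∀ e s : ℝ, 0 ≤ e → 0 < s →
      ((∀ (M : Type) [MetricSpace M] [CompleteSpace M], ZFun M (fun _ => e) → ∀ x y : M,
        ∃ (γ : ℝ → M) (C : ℝ), γ 0 = x ∧ γ 1 = y ∧
          ∀ u ∈ Set.Icc (0 : ℝ) 1, ∀ v ∈ Set.Icc (0 : ℝ) 1,
            dist (γ u) (γ v) ≤ C * |u - v| ^ s) ↔
        e < 1 / 2 ∧ s ≤ 1 + Real.logb 2 (1 - e)) := by
  refine ⟨fun M _ _ e x y he he2 hz => aq h1 h2 M e x y he he2 hz, ?_⟩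
  intro e s he hs
  constructor
  · intro H
    have he2 : e < 1 / 2 := by
      by_contra hcon
      push Not at hcon
      have hz : ZFun ℤ_[2] (fun _ => e) := h4.1.mono (fun _ => hcon)
      obtain ⟨γ, C, g0, g1, hγ⟩ := H ℤ_[2] hz 0 1
      have hcont : ContinuousOn γ (Set.Icc 0 1) := by
        have hC : ∀ u ∈ Set.Icc (0 : ℝ) 1, ∀ v ∈ Set.Icc (0 : ℝ) 1,
            dist (γ u) (γ v) ≤ |C| * |u - v| ^ s := fun u hu v hv =>
          (hγ u hu v hv).trans (mul_le_mul_of_nonneg_right (le_abs_self C)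
            (Real.rpow_nonneg (abs_nonneg _) _))
        intro u hu
        rw [ContinuousWithinAt, tendsto_iff_dist_tendsto_zero]
        have ht : Tendsto (fun v : ℝ => |C| * |v - u| ^ s) (𝓝[Set.Icc 0 1] u) (𝓝 0) := by
          have hc : ContinuousAt (fun v : ℝ => |C| * |v - u| ^ s) u := by
            apply ContinuousAt.mul continuousAt_const
            apply ContinuousAt.rpow_const
            · exact (continuous_abs.comp (continuous_id.sub continuous_const)).continuousAt
            · right; exact hs.le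
          have h0 : |C| * |u - u| ^ s = 0 := by
            rw [sub_self, abs_zero, Real.zero_rpow hs.ne', mul_zero]
          have := hc.tendsto
          rw [h0] at this
          exact this.mono_left nhdsWithin_le_nhds
        refine tendsto_of_tendsto_of_tendsto_of_le_of_le' tendsto_const_nhds ht
          (Eventually.of_forall fun v => dist_nonneg) ?_
        filter_upwards [self_mem_nhdsWithin] with v hv using hC v hv u hu
      have := h4.2 γ hcont
      rw [g0, g1] at this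
      exact zero_ne_one this
    refine ⟨he2, ?_⟩
    by_contra hcon
    push Not at hcon
    have hs0 := expo_pos he he2
    have hs1 := expo_le he he2
    obtain ⟨hcomp, hz, hcur⟩ := h3 (1 + Real.logb 2 (1 - e)) hs0 hs1
    have he' : (1 : ℝ) - 2 ^ ((1 + Real.logb 2 (1 - e)) - 1) = e := by
      have h1 : (0 : ℝ) < 1 - e := by linarith
      rw [add_sub_cancel_left, Real.rpow_logb (by norm_num) (by norm_num) h1]
      ring
    rw [he'] at hz
    obtain ⟨γ, C, g0, g1, hγ⟩ := H _ hz (Metric.Snowflaking.toSnowflaking 0)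
      (Metric.Snowflaking.toSnowflaking 1)
    have := hcur γ s C hcon hγ
    rw [g0, g1] at this
    have := Metric.Snowflaking.toSnowflaking.injective this
    exact zero_ne_one this
  · rintro ⟨he2, hs2⟩ M _ _ hz x y
    obtain ⟨γ, g0, g1, hγ⟩ := aq h1 h2 M e x y he he2
      (ZFun.upTo (w := fun _ => e) monotone_const hz _)
    have hs0 := expo_pos he he2
    have hs1 := expo_le he he2
    refine ⟨γ, dist x y / ((1 - e) * (1 - 2 * e) * (1 + Real.logb 2 (1 - e))), g0, g1, ?_⟩
    intro u hu v hv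
    refine (hγ u v).trans ?_
    apply mul_le_mul_of_nonneg_left
    · by_cases huv : |u - v| = 0
      · rw [huv, Real.zero_rpow hs.ne', Real.zero_rpow hs0.ne']
      · apply Real.rpow_le_rpow_of_exponent_ge
        · exact lt_of_le_of_ne (abs_nonneg _) (Ne.symm huv)
        · rw [abs_le]; constructor <;> linarith [hu.1, hu.2, hv.1, hv.2]
        · exact hs2
    · apply div_nonneg dist_nonneg
      have : 0 ≤ 1 - 2 * e := by linarith
      have : 0 ≤ 1 - e := by linarith
      positivity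

end Pool.Agent.Helper75.PZ
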