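import Pool.Agent.Helper75.PZ.FinA

/-!
# Project PZ: assembly of the theorem on curves of finite length
-/

namespace Pool.Agent.Helper75.PZ

open Finset Filter Topology

/-- The property with modulus `w` for all pairs at distance at most `R`. -/
def ZOn (M : Type) [MetricSpace M] (w : ℝ → ℝ) (R : ℝ) : Prop :=
  ∀ u v : M, u ≠ v → dist u v ≤ R →
    ∃ z : M, z ≠ u ∧ z ≠ v ∧ gp u v z ≤ w (dist u v) * min (dist u z) (dist v z)

theorem ZOn.upTo {M : Type} [MetricSpace M] {w : ℝ → ℝ} {R r : ℝ} (hw : Monotone w)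
    (h : ZOn M w R) (hr : r ≤ R) : ZUpTo M (w r) r := by
  intro u v huv hR
  obtain ⟨z, hz1, hz2, hz3⟩ := h u v huv (hR.trans hr)
  refine ⟨z, hz1, hz2, hz3.trans ?_⟩
  exact mul_le_mul_of_nonneg_right (hw hR) (le_min dist_nonneg dist_nonneg)

/-- The rule with two pieces. -/
theorem rule_two (h1 : P_BIN) (M : Type) [MetricSpace M] [CompleteSpace M] (w : ℝ → ℝ) (R : ℝ)
    (hw : Monotone w) (hw0 : ∀ r, 0 ≤ w r) (hwR : w R ≤ 1 / 8) (hz : ZOn M w R) :
    ∃ (P : M → M → ℕ → M) (T : M → M → ℕ → ℝ),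
      Rule M R (7 / 8) 2 (Real.logb 2 (8 / 7)) 2 P T ∧
      ∀ x y : M, x ≠ y → dist x y ≤ R →
        ∑ i ∈ range 2, dist (P x y i) (P x y (i + 1)) ≤ (1 + 2 * w (dist x y)) * dist x y := by
  classical
  have key : ∀ x y : M, ∃ z : M, dist x y ≤ R →
      dist x z ≤ 7 / 8 * dist x y ∧ dist z y ≤ 7 / 8 * dist x y ∧
      dist x z + dist z y ≤ (1 + 2 * w (dist x y)) * dist x y := by
    intro x y
    by_cases hxy : dist x y ≤ R
    · obtain ⟨z, hz1, hz2, hz3⟩ := h1 M (w (dist x y)) x y (hw0 _) ((hw hxy).trans hwR)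
        (hz.upTo hw hxy)
      exact ⟨z, fun _ => ⟨hz1, hz2, hz3⟩⟩
    · exact ⟨x, fun h => absurd h hxy⟩
  choose z hz' using key
  have hpow : ((1 : ℝ) / 2) ^ (Real.logb 2 (8 / 7)) = 7 / 8 := by
    rw [one_div, Real.inv_rpow (by norm_num), Real.rpow_logb (by norm_num) (by norm_num)
      (by norm_num)]
    norm_num
  refine ⟨fun x y i => if i = 0 then x else if i = 1 then z x y else y, fun _ _ _ => 1 / 2,
    ⟨?_, ?_, ?_, ?_, ?_, ?_, ?_⟩, ?_⟩
  · intro x y _ _; simp
  · intro x y _ _; simp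
  · intro x y _ _ i _; norm_num
  · intro x y _ _; norm_num
  · intro x y _ hR i hi
    have h := hz' x y hR
    interval_cases i
    · simpa using h.1
    · simpa using h.2.1
  · intro x y _ hR i hi
    have h := hz' x y hR
    rw [hpow]
    interval_cases i
    · simpa using h.1
    · simpa using h.2.1
  · intro x y _ hR i hi
    have h := hz' x y hR
    have h0 : 0 ≤ dist x y := dist_nonneg
    interval_cases i
    · have := h.1
      simp only [if_true, zero_add, one_ne_zero, if_false]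
      linarith
    · have := h.2.1
      simp only [one_ne_zero, if_true, if_false]
      norm_num
      linarith
  · intro x y _ hR
    have h := (hz' x y hR).2.2
    simpa [Finset.sum_range_succ] using h

/-- Curves of finite length with an explicit bound. -/
theorem bq (h1 : P_BIN) (h2 : P_LIM) (h3 : P_LEN) (M : Type) [MetricSpace M] [CompleteSpace M]
    (w : ℝ → ℝ) (x y : M) (hw : Monotone w) (hw0 : ∀ r, 0 ≤ w r) (hwR : w (dist x y) ≤ 1 / 8)
    (hz : ZOn M w (dist x y)) (hs : Summable (fun n : ℕ => w ((7 / 8) ^ n * dist x y))) :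
    ∃ γ : ℝ → M, Continuous γ ∧ γ 0 = x ∧ γ 1 = y ∧ eVariationOn γ (Set.Icc 0 1)
      ≤ ENNReal.ofReal (dist x y * Real.exp (2 * ∑' n : ℕ, w ((7 / 8) ^ n * dist x y))) := by
  obtain ⟨P, T, hR, hsum⟩ := rule_two h1 M w (dist x y) hw hw0 hwR hz
  have hs0 : 0 < Real.logb 2 (8 / 7) := Real.logb_pos (by norm_num) (by norm_num)
  have hs1 : Real.logb 2 (8 / 7) ≤ 1 := by
    rw [Real.logb_le_iff_le_rpow (by norm_num) (by norm_num)]
    norm_num
  obtain ⟨L, hL⟩ := h2 M (dist x y) (7 / 8) 2 (Real.logb 2 (8 / 7)) 2 P T (by norm_num)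
    (by norm_num) (by norm_num) hs0 hs1 hR
  obtain ⟨ht, h0, h1', hh⟩ := hL x y le_rfl
  refine ⟨L x y, ?_, h0, h1', ?_⟩
  · rw [continuous_iff_continuousAt]
    intro u
    rw [ContinuousAt, tendsto_iff_dist_tendsto_zero]
    set A := dist x y * (2 ^ (1 - Real.logb 2 (8 / 7)) * (2 / Real.logb 2 (8 / 7))) with hA
    have htt : Tendsto (fun v : ℝ => A * |v - u| ^ Real.logb 2 (8 / 7)) (𝓝 u) (𝓝 0) := by
      have hc : ContinuousAt (fun v : ℝ => A * |v - u| ^ Real.logb 2 (8 / 7)) u := by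
        apply ContinuousAt.mul continuousAt_const
        apply ContinuousAt.rpow_const
        · exact (continuous_abs.comp (continuous_id.sub continuous_const)).continuousAt
        · right; exact hs0.le
      have h0 : A * |u - u| ^ Real.logb 2 (8 / 7) = 0 := by
        rw [sub_self, abs_zero, Real.zero_rpow hs0.ne', mul_zero]
      have := hc.tendsto
      rw [h0] at this
      exact this
    refine tendsto_of_tendsto_of_tendsto_of_le_of_le tendsto_const_nhds htt
      (fun v => dist_nonneg) (fun v => ?_)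
    refine (hh v u).trans (le_of_eq ?_)
    rw [hA]; ring
  · refine (eVariationOn.mono _ (Set.subset_univ _)).trans ?_
    exact h3 M (dist x y) (7 / 8) 2 (Real.logb 2 (8 / 7)) 2 P T w (by norm_num) (by norm_num)
      (by norm_num) hs0 hs1 hR hw hw0 hsum x y (L x y) le_rfl ht hs

/-- The full theorem on curves of finite length: explicit bound, and the exact condition on the
modulus. -/
theorem final_B (h0 : P_SPL) (h1 : P_BIN) (h2 : P_LIM) (h3 : P_LEN) (h4 : P_CHN) (h5 : P_SEQ)
    (h6 : P_DMT) (w : ℝ → ℝ) (hw : Monotone w) (hw0 : ∀ r, 0 ≤ w r) (hw1 : ∀ r, w r < 1 / 2) :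
    (∀ (M : Type) [MetricSpace M] [CompleteSpace M] (x y : M), ZOn M w (dist x y) →
      w (dist x y) ≤ 1 / 8 → Summable (fun n : ℕ => w ((7 / 8) ^ n * dist x y)) →
      ∃ γ : ℝ → M, Continuous γ ∧ γ 0 = x ∧ γ 1 = y ∧ eVariationOn γ (Set.Icc 0 1)
        ≤ ENNReal.ofReal (dist x y * Real.exp (2 * ∑' n : ℕ, w ((7 / 8) ^ n * dist x y)))) ∧
    ((∀ (M : Type) [MetricSpace M] [CompleteSpace M], ZFun M w → ∀ x y : M, RJ x y) ↔
      Summable (fun n : ℕ => w ((1 / 2) ^ n))) := by
  refine ⟨fun M _ _ x y hz hwR hs => bq h1 h2 h3 M w x y hw hw0 hwR hz hs, ?_, ?_⟩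
  · intro H
    by_contra hcon
    obtain ⟨M, i1, i2, hz, x, y, hxy⟩ := h6 w hw hw0 hcon
    exact hxy (H M hz x y)
  · intro hs M _ _ hz x y
    have htend : Tendsto (fun n : ℕ => w ((1 / 2) ^ n)) atTop (𝓝 0) := hs.tendsto_atTop_zero
    obtain ⟨n, hn⟩ := (htend.eventually (gt_mem_nhds (show (0 : ℝ) < 1 / 8 by norm_num))).exists
    have hsmall : ∀ u v : M, dist u v ≤ (1 / 2) ^ n → RJ u v := by
      intro u v huv
      obtain ⟨γ, hγ, g0, g1, hlen⟩ := bq h1 h2 h3 M w u v hw hw0 ((hw huv).trans hn.le)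
        (fun a b hab _ => hz a b hab) (h5 w hw hw0 hs _ dist_nonneg)
      exact ⟨γ, hγ, g0, g1, ne_of_lt (lt_of_le_of_lt hlen ENNReal.ofReal_lt_top)⟩
    obtain ⟨γ, g0, g1, hγ⟩ := aq h0 h2 M (w (dist x y)) x y (hw0 _) (hw1 _)
      (ZFun.upTo hw hz _)
    have hs0 := expo_pos (hw0 (dist x y)) (hw1 (dist x y))
    have hcont : Continuous γ := by
      rw [continuous_iff_continuousAt]
      intro u
      rw [ContinuousAt, tendsto_iff_dist_tendsto_zero]
      set A := dist x y / ((1 - w (dist x y)) * (1 - 2 * w (dist x y)) *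
        (1 + Real.logb 2 (1 - w (dist x y)))) with hA
      set s := 1 + Real.logb 2 (1 - w (dist x y)) with hs'
      have htt : Tendsto (fun v : ℝ => A * |v - u| ^ s) (𝓝 u) (𝓝 0) := by
        have hc : ContinuousAt (fun v : ℝ => A * |v - u| ^ s) u := by
          apply ContinuousAt.mul continuousAt_const
          apply ContinuousAt.rpow_const
          · exact (continuous_abs.comp (continuous_id.sub continuous_const)).continuousAt
          · right; exact hs0.le
        have h0 : A * |u - u| ^ s = 0 := by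
          rw [sub_self, abs_zero, Real.zero_rpow hs0.ne', mul_zero]
        have := hc.tendsto
        rw [h0] at this
        exact this
      exact tendsto_of_tendsto_of_tendsto_of_le_of_le tendsto_const_nhds htt
        (fun v => dist_nonneg) (fun v => hγ v u)
    have := h4 M ((1 / 2) ^ n) (by positivity) hsmall γ hcont.continuousOn
    rw [g0, g1] at this
    exact this

end Pool.Agent.Helper75.PZ
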