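import Pool.Agent.Helper75.PZ.GoalsC

/-!
# Project PZ: assembly of the theorem on connectedness
-/

namespace Pool.Agent.Helper75.PZ

open Finset Filter Topology

theorem path_of_summable (h1 : P_SPC) (h2 : P_SQR) (h3 : P_UNI) (h : ℝ → ℝ) (hm : Monotone h)
    (hp : ∀ r, 0 < r → 0 < h r) (hh : ∀ r, h r ≤ 1 / 2)
    (hs : Summable (fun n : ℕ => (1 / 2 : ℝ) ^ n / h ((1 / 2) ^ n)))
    (M : Type) [MetricSpace M] [CompleteSpace M] (hz : ZFun M (fun r => 1 / 2 - h r)) (x y : M) :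
    ∃ γ : ℝ → M, Continuous γ ∧ γ 0 = x ∧ γ 1 = y := by
  obtain ⟨r, r0, rpos, rdec, rsum, hr⟩ := h2 h hm hp hh hs (dist x y + 1)
    (by have := dist_nonneg (x := x) (y := y); linarith)
  refine h3 M r rdec rsum ?_ x y (by rw [r0]; linarith)
  intro n u v huv
  by_cases huv0 : u = v
  · subst huv0
    have := (rpos (n + 1)).le
    exact ⟨u, u, u, by simpa using this, by simpa using this, by simpa using this,
      by simpa using this⟩
  · have hD : 0 < dist u v := dist_pos.mpr huv0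
    have hc : 0 < 2 * h (dist u v / 2) := by
      have := hp (dist u v / 2) (by linarith); linarith
    have hc1 : 2 * h (dist u v / 2) ≤ 1 := by have := hh (dist u v / 2); linarith
    obtain ⟨p1, p2, p3, q0, q1, q2, q3⟩ := h1 M (2 * h (dist u v / 2)) u v hc hc1 huv0 (by
      intro a b hab hab1 hab2
      obtain ⟨z, z1, z2, z3⟩ := hz a b hab
      refine ⟨z, z1, z2, z3.trans ?_⟩
      apply mul_le_mul_of_nonneg_right _ (le_min dist_nonneg dist_nonneg)
      have := hm hab1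
      show 1 / 2 - h (dist a b) ≤ (1 - 2 * h (dist u v / 2)) / 2
      linarith)
    have key : (1 - 2 * h (dist u v / 2) / 4) * dist u v ≤ r (n + 1) := by
      refine le_trans (le_of_eq ?_) (hr n (dist u v) hD.le huv)
      ring
    exact ⟨p1, p2, p3, q0.trans key, q1.trans key, q2.trans key, q3.trans key⟩

theorem preconnected_of_paths (M : Type) [MetricSpace M]
    (H : ∀ x y : M, ∃ γ : ℝ → M, Continuous γ ∧ γ 0 = x ∧ γ 1 = y) : PreconnectedSpace M := by
  constructor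
  apply isPreconnected_of_forall_pair
  intro x _ y _
  obtain ⟨γ, hγ, h0, h1⟩ := H x y
  refine ⟨Set.range γ, Set.subset_univ _, ⟨0, h0⟩, ⟨1, h1⟩, ?_⟩
  exact isPreconnected_range hγ

theorem final_C (h1 : P_SPC) (h2 : P_SQR) (h3 : P_UNI) (h4 : P_CDM) (h : ℝ → ℝ)
    (hm : Monotone h) (hp : ∀ r, 0 < r → 0 < h r) (hh : ∀ r, h r ≤ 1 / 2) :
    ((∀ (M : Type) [MetricSpace M] [CompleteSpace M], ZFun M (fun r => 1 / 2 - h r) →
        ∀ x y : M, ∃ γ : ℝ → M, Continuous γ ∧ γ 0 = x ∧ γ 1 = y) ↔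
      Summable (fun n : ℕ => (1 / 2 : ℝ) ^ n / h ((1 / 2) ^ n))) ∧
    ((∀ (M : Type) [MetricSpace M] [CompleteSpace M], ZFun M (fun r => 1 / 2 - h r) →
        PreconnectedSpace M) ↔
      Summable (fun n : ℕ => (1 / 2 : ℝ) ^ n / h ((1 / 2) ^ n))) := by
  have A : Summable (fun n : ℕ => (1 / 2 : ℝ) ^ n / h ((1 / 2) ^ n)) →
      (∀ (M : Type) [MetricSpace M] [CompleteSpace M], ZFun M (fun r => 1 / 2 - h r) →
        ∀ x y : M, ∃ γ : ℝ → M, Continuous γ ∧ γ 0 = x ∧ γ 1 = y) :=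
    fun hs M _ _ hz x y => path_of_summable h1 h2 h3 h hm hp hh hs M hz x y
  have C : (∀ (M : Type) [MetricSpace M] [CompleteSpace M], ZFun M (fun r => 1 / 2 - h r) →
        PreconnectedSpace M) →
      Summable (fun n : ℕ => (1 / 2 : ℝ) ^ n / h ((1 / 2) ^ n)) := by
    intro H
    by_contra hcon
    obtain ⟨M, i1, i2, hz, hM⟩ := h4 h hm hp hh hcon
    exact hM (H M hz)
  refine ⟨⟨fun H => C fun M _ _ hz => preconnected_of_paths M (H M hz), A⟩,
    ⟨C, fun hs M _ _ hz => preconnected_of_paths M (A hs M hz)⟩⟩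

end Pool.Agent.Helper75.PZ
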