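import Pool.Agent.Helper75.PZ.GoalsA

/-!
# Project PZ (MP_acfd82_an): examples and connectivity

Independent goals with complete proofs in the docstrings.
-/

namespace Pool.Agent.Helper75.PZ

open Finset Filter Topology

/-- Two points are joined by a continuous curve of finite length. -/
def RJ {M : Type} [MetricSpace M] (x y : M) : Prop :=
  ∃ γ : ℝ → M, Continuous γ ∧ γ 0 = x ∧ γ 1 = y ∧ eVariationOn γ (Set.Icc 0 1) ≠ ⊤

/-- PACKET TRJ. Proof. For curves `γ1` from `x` to `y` and `γ2` from `y` to `z` take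
`γ u = γ1 (2 u)` for `u ≤ 1/2` and `γ2 (2 u - 1)` for `u > 1/2`; it is continuous
(`Continuous.if_le`), and its variation on `[0,1] = [0,1/2] ∪ [1/2,1]` is the sum of the two
variations (`eVariationOn.union`, `eVariationOn.comp_le_of_monotoneOn`, `eVariationOn.congr` type
lemmas). -/
def P_TRJ : Prop :=
  ∀ (M : Type) [MetricSpace M] (x y z : M), RJ x y → RJ y z → RJ x z

/-- PACKET CHN. May assume `P_TRJ`. Proof. `γ` is uniformly continuous on `[0,1]`; take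
`N ≥ 1` such that `d(γ (i/N), γ ((i+1)/N)) ≤ r` for `i < N`. By induction on `i ≤ N`,
`RJ (γ 0) (γ (i/N))` (the constant curve for `i = 0`), and `i = N` is the claim. -/
def P_CHN : Prop :=
  ∀ (M : Type) [MetricSpace M] (r : ℝ), 0 < r → (∀ u v : M, dist u v ≤ r → RJ u v) →
    ∀ γ : ℝ → M, ContinuousOn γ (Set.Icc 0 1) → RJ (γ 0) (γ 1)

/-- PACKET SEQ. Proof. ` (7/8)^6 ≤ 1/2`. If `D = 0`: `0 ≤ w 0 ≤ w ((1/2)^n) → 0`, so all terms
are `0`. If `D > 0` choose `k` with `D ≤ 2^k`. For `n = 6 j + i`, `i < 6`: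
` (7/8)^n D ≤ (1/2)^j 2^k`, so for `j ≥ k` `w((7/8)^n D) ≤ w((1/2)^(j-k))`. Hence the sums of
the (nonnegative) terms over `6 k ≤ n < 6 J` are at most `6 ∑_{l} w((1/2)^l)`: bounded finite
sums, so summable. -/
def P_SEQ : Prop :=
  ∀ w : ℝ → ℝ, Monotone w → (∀ r, 0 ≤ w r) → Summable (fun n : ℕ => w ((1 / 2) ^ n)) →
    ∀ D : ℝ, 0 ≤ D → Summable (fun n : ℕ => w ((7 / 8) ^ n * D))

/-- PACKET PHI (a metric gauge without rectifiable curves). `w` is monotone, nonnegative and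
`∑ w(2^(-n))` diverges.

Proof. `φ(t) = t + (1/2) ∑_{n ≥ 0} w_n min(t, 2^(-n))` with `w_n = w(2^(-n)) ≤ w(1)` (for
`t ≥ 0`; summable since the terms are at most `w(1) 2^(-n)`).
(1) `φ 0 = 0`, `t ≤ φ t`, monotone: clear. Subadditive since
`min(a+b,c) ≤ min(a,c) + min(b,c)` for `a, b, c ≥ 0`.
(2) small values: given `ε > 0` choose `N` with `w(1) 2^(1-N) < ε` and then `δ` small: for
`0 ≤ t < δ`, `φ t ≤ t + (1/2) N w(1) t + (1/2) w(1) 2^(1-N) < ε` (terms `n < N` are at most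
`w(1) t`, the tail is at most `w(1) ∑_{n ≥ N} 2^(-n) = w(1) 2^(1-N)`); or use
`tendsto_tsum_of_dominated_convergence`.
(3) `2 φ(t/2) - φ(t) ≤ w(t) t` for `t > 0`: the left side is
` (1/2) ∑ w_n (2 min(t/2,c_n) - min(t,c_n))` with `c_n = 2^(-n)`, and
`2 min(t/2,c) - min(t,c) = min(t,2c) - min(t,c)` is `0` for `c ≥ t` and at most `c` for `c < t`.
For `c_n < t` we have `w_n ≤ w(t)`. So the left side is at most
` (1/2) w(t) ∑_{c_n < t} c_n ≤ (1/2) w(t) 2 t` (geometric series starting at the largest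
`c_n < t`).
(4) for every `L` there is `δ > 0` with `L t ≤ φ t` on `[0,δ]`: the finite sums of `w_n` are
unbounded; take `N` with ` (1/2) ∑_{n<N} w_n ≥ L` and `δ = 2^(-N)`. -/
def P_PHI : Prop :=
  ∀ w : ℝ → ℝ, Monotone w → (∀ r, 0 ≤ w r) → ¬ Summable (fun n : ℕ => w ((1 / 2) ^ n)) →
    ∃ φ : ℝ → ℝ, φ 0 = 0 ∧ (∀ t, 0 ≤ t → t ≤ φ t) ∧
      (∀ a b, 0 ≤ a → a ≤ b → φ a ≤ φ b) ∧
      (∀ a b, 0 ≤ a → 0 ≤ b → φ (a + b) ≤ φ a + φ b) ∧
      (∀ ε > 0, ∃ δ > 0, ∀ t, 0 ≤ t → t < δ → φ t < ε) ∧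
      (∀ t, 0 < t → 2 * φ (t / 2) - φ t ≤ w t * t) ∧
      (∀ L : ℝ, ∃ δ > 0, ∀ t, 0 ≤ t → t ≤ δ → L * t ≤ φ t)

/-- PACKET DMT. May assume `P_PHI`. Proof. `M` is a copy of `ℝ` with
`d(u,v) = φ(|u - v|)`: a metric by the properties of `φ` (`|u-v| ≤ d(u,v)` gives
separation; triangle inequality from monotone and subadditive). Complete: a Cauchy sequence is
Cauchy in `ℝ` (`|u-v| ≤ d(u,v)`), converges there to `u`, and `φ(|u_n - u|) → 0`.
`ZFun M w`: for `u ≠ v`, `t = |u - v| > 0`, take the midpoint `z`. `gp u v z =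
(2 φ(t/2) - φ(t))/2 ≤ w(t) t/2 ≤ w(φ(t)) φ(t/2)`, as `t ≤ φ(t)`, `t/2 ≤ φ(t/2)`, `w` is
monotone and nonnegative. No curve of finite length from `0` to `1`: let `γ` be continuous into
`M`, `γ 0 = 0`, `γ 1 = 1`; as a real function `γ` is continuous too (the identity from `M` to
`ℝ` is `1`-Lipschitz). Given `L`, take `δ` from the last property of `φ` and `N` with
`|γ (i/N) - γ ((i+1)/N)| ≤ δ` for `i < N` (uniform continuity). Then
`∑_i d(γ (i/N), γ ((i+1)/N)) ≥ L ∑_i |γ (i/N) - γ ((i+1)/N)| ≥ L`, so the variation on `[0,1]`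
is at least `L`, for every `L`. -/
def P_DMT : Prop :=
  ∀ w : ℝ → ℝ, Monotone w → (∀ r, 0 ≤ w r) → ¬ Summable (fun n : ℕ => w ((1 / 2) ^ n)) →
    ∃ (M : Type) (_ : MetricSpace M) (_ : CompleteSpace M), ZFun M w ∧
      ∃ x y : M, ¬ RJ x y

/-- PACKET SNW (snowflakes of the line). Proof. `d(u,v) = |u-v|^s`. Complete: the identity is a
uniform equivalence with `ℝ` (`Metric.Snowflaking.uniformEquiv`). Property: for `u ≠ v`,
`t = |u-v|`, and `z` the midpoint, `gp u v z = (2 (t/2)^s - t^s)/2 = (1 - 2^(s-1)) (t/2)^s`,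
because `t^s = 2^s (t/2)^s`. Curves: `|γ u - γ v|^s ≤ C |u-v|^s'` on `[0,1]`; we may take
`C ≥ 0`. For `N ≥ 1`: `|γ 0 - γ 1| ≤ ∑_{i<N} |γ (i/N) - γ ((i+1)/N)| ≤ N (C N^(-s'))^(1/s)
= C^(1/s) N^(1 - s'/s) → 0`. -/
def P_SNW : Prop :=
  ∀ (s : ℝ) (h0 : 0 < s) (h1 : s ≤ 1),
    CompleteSpace (Metric.Snowflaking ℝ s h0 h1) ∧
    ZFun (Metric.Snowflaking ℝ s h0 h1) (fun _ => 1 - 2 ^ (s - 1)) ∧
    ∀ (γ : ℝ → Metric.Snowflaking ℝ s h0 h1) (s' C : ℝ), s < s' →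
      (∀ u ∈ Set.Icc (0 : ℝ) 1, ∀ v ∈ Set.Icc (0 : ℝ) 1,
        dist (γ u) (γ v) ≤ C * |u - v| ^ s') → γ 0 = γ 1

/-- PACKET PAD (the 2-adic integers). Proof. For `u ≠ v` take `z = u + 2^k` with
`2^(-k) < d(u,v)`. Then `z ≠ u`, `d(u,z) = 2^(-k) < d(u,v)`, so (ultrametric) `d(v,z) = d(u,v)`,
`z ≠ v`, and `gp u v z = d(u,z)/2 = (1/2) min(d(u,z), d(v,z))`. A continuous image of `[0,1]` is
preconnected, hence a single point (totally disconnected). -/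
def P_PAD : Prop :=
  ZFun ℤ_[2] (fun _ => 1 / 2) ∧
    ∀ γ : ℝ → ℤ_[2], ContinuousOn γ (Set.Icc 0 1) → γ 0 = γ 1

end Pool.Agent.Helper75.PZ
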