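import Pool.Agent.Helper75.PZ.GoalsA

/-!
# Project PZ (MP_acfd82_an): the sharp threshold for connectedness

`h` is monotone, positive at positive numbers, at most `1/2`. Every pair at distance `r` has the
property with the constant `1/2 - h r`. If `∑ 2^(-n) / h(2^(-n))` converges, complete spaces of
this kind are path connected; if it diverges, there is a complete disconnected one.
-/

namespace Pool.Agent.Helper75.PZ

open Finset Filter Topology

/-- PACKET SPC (super-step for a range of distances). May assume `P_EKE` (GoalsA).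
`0 < c ≤ 1`, `x ≠ y`, `D = d(x,y)`; every pair `u, v` with `D/2 ≤ d(u,v) ≤ D` has a third point
`z` with `gp u v z ≤ (1-c)/2 * min`. Then there is a chain `x, p1, p2, p3, y` all of whose four
steps are at most ` (1 - c/4) D`.

Proof. `P_EKE` with this `c` and `r = D/4` gives `p1`, `p3` with `a0 = d(x,p1) ≤ D/4`,
`a3 = d(p3,y) ≤ D/4`, `c(a0+a3) + d(p1,p3) ≤ D`, minimal. `D/2 ≤ d(p1,p3) ≤ D`. Take `z` for the
pair `p1, p3` (which are different since `D > 0`) and let `p2 = z`. Say `d(p1,z) ≤ d(z,p3)`, the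
other case is symmetric. The property says `d(p1,z) + d(z,p3) - d(p1,p3) ≤ (1-c) d(p1,z)`, so
`c d(p1,z) + d(z,p3) ≤ d(p1,p3)`. If `d(x,z) ≤ D/4` the pair `z, p3` contradicts the minimality
(`z ≠ p1`). So `D/4 < d(x,z) ≤ a0 + d(p1,z)` and
`d(p1,z) ≤ d(z,p3) ≤ D - c(a0 + a3 + d(p1,z)) ≤ D - c D/4`. Finally `D/4 ≤ (1-c/4) D`. -/
def P_SPC : Prop :=
  ∀ (M : Type) [MetricSpace M] [CompleteSpace M] (c : ℝ) (x y : M), 0 < c → c ≤ 1 → x ≠ y →
    (∀ u v : M, u ≠ v → dist x y / 2 ≤ dist u v → dist u v ≤ dist x y →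
      ∃ z : M, z ≠ u ∧ z ≠ v ∧ gp u v z ≤ (1 - c) / 2 * min (dist u z) (dist v z)) →
    ∃ p1 p2 p3 : M, dist x p1 ≤ (1 - c / 4) * dist x y ∧ dist p1 p2 ≤ (1 - c / 4) * dist x y ∧
      dist p2 p3 ≤ (1 - c / 4) * dist x y ∧ dist p3 y ≤ (1 - c / 4) * dist x y

/-- PACKET GFN (a potential). Proof. Put `c n = 1/h(2^(-n-1)) - 1/h(2^(-n)) ≥ 0` and
`G r = r / h 1 + ∑ n, c n * min r (2^(-n))`. The terms for `r ≥ 0` are at most
`2^(-n)/h(2^(-n-1)) = 2 * 2^(-(n+1))/h(2^(-(n+1)))`, so the series converges, and `G` is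
nonnegative on `r ≥ 0`. Let `0 ≤ r' ≤ r`, `0 < r`. If `r > 1` then
`G r - G r' ≥ (r-r')/h 1 ≥ (r-r')/h r`. If `r ≤ 1` let `N` be such that
`2^(-N-1) < r ≤ 2^(-N)`. For `n ≤ N` we have `min r 2^(-n) - min r' 2^(-n) = r - r'`, the other
differences are nonnegative, so `G r - G r' ≥ (r-r') (1/h 1 + ∑_{n ≤ N} c n)
= (r-r')/h(2^(-N-1)) ≥ (r-r')/h r`. -/
def P_GFN : Prop :=
  ∀ h : ℝ → ℝ, Monotone h → (∀ r, 0 < r → 0 < h r) →
    Summable (fun n : ℕ => (1 / 2 : ℝ) ^ n / h ((1 / 2) ^ n)) →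
    ∃ G : ℝ → ℝ, (∀ r, 0 ≤ r → 0 ≤ G r) ∧
      ∀ r' r, 0 ≤ r' → r' ≤ r → 0 < r → (r - r') / h r ≤ G r - G r'

/-- PACKET SQR (the scales). May assume `P_GFN`.

Proof. Put `r 0 = R`, `r (n+1) = r n * (1 - h(r n / 4)/2)`; since `0 < h ≤ 1/2` at positive
numbers, `r n > 0` and `r (n+1) ≤ r n`. If `0 ≤ a ≤ r n`: for `a ≤ r n / 2` the claim
`a (1 - h(a/2)/2) ≤ a ≤ r n / 2 ≤ r (n+1)` (for `a = 0` trivial; `h (a/2) ≥ 0` for `a > 0`); for
`a ≥ r n / 2` we have `h(a/2) ≥ h(r n/4)` and `a ≤ r n`. Summable: apply `P_GFN` to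
`h' r = h (r/4)`, which satisfies the hypotheses (`2^(-n)/h(2^(-n-2)) = 4 * 2^(-(n+2))/h(2^(-(n+2)))`).
Then `G(r n) - G(r (n+1)) ≥ (r n - r (n+1))/h(r n/4) = r n / 2`, so the finite sums of `r n`
are at most `2 G(R)`. -/
def P_SQR : Prop :=
  ∀ h : ℝ → ℝ, Monotone h → (∀ r, 0 < r → 0 < h r) → (∀ r, h r ≤ 1 / 2) →
    Summable (fun n : ℕ => (1 / 2 : ℝ) ^ n / h ((1 / 2) ^ n)) →
    ∀ R : ℝ, 0 < R → ∃ r : ℕ → ℝ, r 0 = R ∧ (∀ n, 0 < r n) ∧ (∀ n, r (n + 1) ≤ r n) ∧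
      Summable r ∧ ∀ n a, 0 ≤ a → a ≤ r n → a * (1 - h (a / 2) / 2) ≤ r (n + 1)

/-- PACKET UNI (a curve from uniformly refining chains). `r` is a decreasing summable sequence
and any two points at distance at most `r n` are joined by a chain of four steps of length at
most `r (n+1)`. Then two points at distance at most `r 0` are joined by a continuous curve.

Proof. `r` is decreasing with limit `0`, so `r n ≥ 0`. For every `n` and `x, y` choose a chain `P n x y`, and define for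
`m, n`: `Γ m 0 x y u = x` if `u < 1` and `y` otherwise, and `Γ m (n+1) x y` is the
concatenation of the four curves `v ↦ Γ (m+1) n p_i p_{i+1} (4 v)` on intervals of
length `1/4` (`cat p (fun _ => 1/4) g 4` of GoalsA, with the chain of index `m`); `x, y` at
distance at most `r m`. By induction on `n` (for all `m`, `x`, `y` with `d(x,y) ≤ r m`):
(a) `Γ = x` for `u ≤ 0`, `Γ = y` for `u ≥ 1`.
(b) if `0 ≤ u ≤ 4^(-n)` then `d(x, Γ u) ≤ r (m+n)`, and if `1 - 4^(-n) ≤ u ≤ 1` then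
`d(Γ u, y) ≤ r (m+n)`: such `u` lies in the first (last) quarter (or is its endpoint).
(c) if `|u-v| ≤ 4^(-n)` then `d(Γ u, Γ v) ≤ 2 r (m+n)`: either `u, v` lie in one quarter, or in
two adjacent ones, and then use (b) for both at the common endpoint (clamp `u, v` to `[0,1]`
first).
(d) `d(Γ m (n+1) x y u, Γ m n x y u) ≤ 5 r (m+n)`: for `n = 0` both points lie within the
chain, whose total length is at most `4 r (m+1) ≤ 4 r m`; for larger `n` quarter by quarter.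
So `Γ 0 n x y u` converges for every `u` to `L u` and `d(L u, Γ 0 n x y u) ≤ 5 ∑_{k ≥ n} r k`.
`L` is continuous: `d(L u, L v) ≤ 10 ∑_{k ≥ n} r k + 2 r n` for `|u - v| ≤ 4^(-n)`. -/
def P_UNI : Prop :=
  ∀ (M : Type) [MetricSpace M] [CompleteSpace M] (r : ℕ → ℝ), (∀ n, r (n + 1) ≤ r n) →
    Summable r →
    (∀ (n : ℕ) (x y : M), dist x y ≤ r n → ∃ p1 p2 p3 : M, dist x p1 ≤ r (n + 1) ∧
      dist p1 p2 ≤ r (n + 1) ∧ dist p2 p3 ≤ r (n + 1) ∧ dist p3 y ≤ r (n + 1)) →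
    ∀ x y : M, dist x y ≤ r 0 → ∃ γ : ℝ → M, Continuous γ ∧ γ 0 = x ∧ γ 1 = y

/-- PACKET DFN (a slowly decreasing positive function). Proof. Write `h_n = h(2^(-n))`,
`t 0 = 0`, `t (n+1) = t n + 2^(-n-1)/(4 h_n)`; `t n → ∞` by divergence of the series. Put
`l_n(s) = 2^(-n) - 4 h_n (s - t n)` and `l(s) = 1 - 2 s`, and
`D s = max (l s) (⨆ n, l_n s)`; or define `D` piecewise: `D s = 1 - 2 s` for `s < 0`,
`D s = l_n s` for `t n ≤ s < t (n+1)`. The slopes `-2 ≤ -4 h_0 ≤ -4 h_1 ≤ ...` increase and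
consecutive lines cross at `t 0 = 0` (value `1`) and at `t (n+1)` (value `2^(-n-1)`), so `D`
equals `l_n` on `[t n, t (n+1)]` and `l` for `s ≤ 0`. `D` is positive (at least `2^(-n-1)` on
`[t n, t (n+1)]`), antitone and `2`-Lipschitz (all slopes lie between `-2` and `0`). Last
property: for `s < 0` take `δ0 = -s`: `D (s+δ) = D s - 2 δ` and `4 h ≤ 2`. For
`t n ≤ s < t (n+1)` take `δ0 = t (n+1) - s`: `D (s+δ) = D s - 4 h_n δ` and
`h (D s) ≤ h_n` as `D s ≤ 2^(-n)`. -/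
def P_DFN : Prop :=
  ∀ h : ℝ → ℝ, Monotone h → (∀ r, 0 < r → 0 < h r) → (∀ r, h r ≤ 1 / 2) →
    ¬ Summable (fun n : ℕ => (1 / 2 : ℝ) ^ n / h ((1 / 2) ^ n)) →
    ∃ D : ℝ → ℝ, (∀ s, 0 < D s) ∧ Antitone D ∧ (∀ s t, |D s - D t| ≤ 2 * |s - t|) ∧
      ∀ s, ∃ δ0 > 0, ∀ δ, 0 ≤ δ → δ ≤ δ0 → D (s + δ) ≤ D s - 4 * h (D s) * δ

/-- PACKET CDM (the disconnected space). May assume `P_DFN`.

Proof. Points are ` (s, i)` with `s` real and `i` in `Bool`; `d((s,i),(t,i)) = |s-t|` and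
`d((s,i),(t,j)) = max (|s-t|) ((D s + D t)/2)` for `i ≠ j`. Triangle inequality: both `|s-t|` and
` (D s + D t)/2` change by at most `|s-s'|` if `s` is replaced by `s'` (`D` is `2`-Lipschitz), and
all distances are at least `|s-t|`. Complete: for a Cauchy sequence ` (s_n, i_n)` the `s_n`
converge to some `s`; as `D s > 0` and points on different sheets near `s` have distance at least
`D s / 2` or so, `i_n` is eventually constant. Not preconnected: the sheet `i = false` is open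
and closed (points of the other sheet have distance at least `D s / 2` from ` (s, i)`).
The property for `u ≠ v`: on the same sheet take the midpoint (Gromov product `0`). On different
sheets write `u = (s,i)`, `v = (t,j)` and let first `s ≤ t` (the property is symmetric in the
pair). `E = d(u,v)`, `z = (s+δ, i)` with small `δ > 0`: `δ ≤ δ0`, `δ ≤ E/4`, and
`δ ≤ t-s` if `s < t`, and `δ ≤ E - D s` if `D s < E`. `d(u,z) = δ`. Claim
`d(z,v) ≤ E - 2 h(E) δ`. (i) `|t - s - δ|`: for `s < t` it is `t-s-δ ≤ E - δ` and `2 h ≤ 1`; for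
`s = t` it is `δ ≤ E - δ`. (ii) ` (D(s+δ) + D t)/2 ≤ (D s + D t)/2 - 2 h(D s) δ`. If `E ≤ D s`
this is at most `E - 2 h(E) δ`. If `D s < E`, then ` (D(s+δ)+D t)/2 ≤ D s ≤ E - δ`. So
`gp u v z = (δ + d(z,v) - E)/2 ≤ (1/2 - h E) δ`, and `δ ≤ d(z,v)` because
`d(z,v) ≥ E - δ ≥ δ`. -/
def P_CDM : Prop :=
  ∀ h : ℝ → ℝ, Monotone h → (∀ r, 0 < r → 0 < h r) → (∀ r, h r ≤ 1 / 2) →
    ¬ Summable (fun n : ℕ => (1 / 2 : ℝ) ^ n / h ((1 / 2) ^ n)) →
    ∃ (M : Type) (_ : MetricSpace M) (_ : CompleteSpace M),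
      ZFun M (fun r => 1 / 2 - h r) ∧ ¬ PreconnectedSpace M

end Pool.Agent.Helper75.PZ
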